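import Mathlib

/-!
# PIG: the counting of section 7 of `H3_78a685_FULL.md` in abstract form
-/

set_option autoImplicit false

namespace Pool.Agent.H71.PIG

open Finset
open Classical

/-- the pairs `i < j < B` -/
noncomputable def prs (B : ℕ) : Finset (ℕ × ℕ) :=
  (range B ×ˢ range B).filter (fun p => p.1 < p.2)

theorem mem_prs {B : ℕ} {p : ℕ × ℕ} : p ∈ prs B ↔ p.1 < p.2 ∧ p.2 < B := by
  unfold prs
  rw [mem_filter, mem_product, mem_range, mem_range]
  constructor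
  · rintro ⟨⟨_, h2⟩, h3⟩
    exact ⟨h3, h2⟩
  · rintro ⟨h3, h2⟩
    exact ⟨⟨h3.trans h2, h2⟩, h3⟩

theorem card_prs (B : ℕ) : B * (B - 1) ≤ 2 * (prs B).card := by
  have h1 : (prs B).card = ∑ j ∈ range B, ((prs B).filter (fun p => p.2 = j)).card := by
    apply card_eq_sum_card_fiberwise
    intro p hp
    exact mem_coe.2 (mem_range.2 (mem_prs.1 (mem_coe.1 hp)).2)
  have h2 : ∀ j ∈ range B, j ≤ ((prs B).filter (fun p => p.2 = j)).card := by
    intro j hj
    have h3 : (range j).image (fun i => (i, j)) ⊆ (prs B).filter (fun p => p.2 = j) := by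
      intro p hp
      obtain ⟨i, hi, rfl⟩ := mem_image.1 hp
      exact mem_filter.2 ⟨mem_prs.2 ⟨mem_range.1 hi, mem_range.1 hj⟩, rfl⟩
    have h4 : ((range j).image (fun i => (i, j))).card = j := by
      rw [card_image_of_injective, card_range]
      intro x y h
      exact (Prod.mk.inj h).1
    calc j = ((range j).image (fun i => (i, j))).card := h4.symm
      _ ≤ _ := card_le_card h3
  have h3 : ∑ j ∈ range B, j ≤ (prs B).card := by
    rw [h1]
    exact sum_le_sum h2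
  have h4 := Finset.sum_range_id_mul_two B
  omega

/-- the antidiagonal sums -/
theorem anti (B Q : ℕ) (lo hi : ℕ → ℕ → ℕ)
    (h1 : ∀ i j, i < j → j < B → lo i j ≤ hi i j ∧ hi i j ≤ Q)
    (h2 : ∀ i j, i + 1 < j → j + 1 < B → hi (i + 1) j ≤ lo i (j + 1)) :
    ∑ p ∈ prs B, (hi p.1 p.2 - lo p.1 p.2) ≤ 2 * B * Q := by
  have hmono : ∀ k i j, i + (k + 1) < j → j + (k + 1) < B → hi (i + (k + 1)) j ≤ lo i (j + (k + 1)) := by
    intro k
    induction k with
    | zero =>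
      intro i j hij hj
      exact h2 i j hij hj
    | succ k ih =>
      intro i j hij hj
      have e1 := h2 (i + (k + 1)) j (by omega) (by omega)
      have e2 := ih i (j + 1) (by omega) (by omega)
      have e3 := (h1 (i + (k + 1)) (j + 1) (by omega) (by omega)).1
      have e4 : j + 1 + (k + 1) = j + (k + 1 + 1) := by ring
      rw [e4] at e2
      have e5 : i + (k + 1) + 1 = i + (k + 1 + 1) := by ring
      rw [e5] at e1
      exact e1.trans (e3.trans e2)
  have hs : ∀ s ∈ range (2 * B), ∑ p ∈ (prs B).filter (fun p => p.1 + p.2 = s), (hi p.1 p.2 - lo p.1 p.2) ≤ Q := by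
    intro s _
    have e1 : ∑ p ∈ (prs B).filter (fun p => p.1 + p.2 = s), (hi p.1 p.2 - lo p.1 p.2) =
        ∑ p ∈ (prs B).filter (fun p => p.1 + p.2 = s), (Ioc (lo p.1 p.2) (hi p.1 p.2)).card := by
      apply sum_congr rfl
      intro p _
      rw [Nat.card_Ioc]
    have key : ∀ p ∈ (prs B).filter (fun p => p.1 + p.2 = s), ∀ p' ∈ (prs B).filter (fun p => p.1 + p.2 = s),
        p.1 < p'.1 → hi p'.1 p'.2 ≤ lo p.1 p.2 := by
      intro p hp p' hp' hlt
      rw [mem_filter, mem_prs] at hp hp'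
      obtain ⟨⟨a1, a2⟩, a3⟩ := hp
      obtain ⟨⟨b1, b2⟩, b3⟩ := hp'
      have h := hmono (p'.1 - p.1 - 1) p.1 p'.2 (by omega) (by omega)
      have c1 : p.1 + (p'.1 - p.1 - 1 + 1) = p'.1 := by omega
      have c2 : p'.2 + (p'.1 - p.1 - 1 + 1) = p.2 := by omega
      rwa [c1, c2] at h
    have e2 : ∑ p ∈ (prs B).filter (fun p => p.1 + p.2 = s), (Ioc (lo p.1 p.2) (hi p.1 p.2)).card =
        (((prs B).filter (fun p => p.1 + p.2 = s)).biUnion (fun p => Ioc (lo p.1 p.2) (hi p.1 p.2))).card := by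
      rw [card_biUnion]
      intro p hp p' hp' hne
      apply Finset.disjoint_left.2
      intro x hx hx'
      rw [mem_Ioc] at hx hx'
      have hp1 := (mem_filter.1 hp).2
      have hp2 := (mem_filter.1 hp').2
      rcases lt_trichotomy p.1 p'.1 with h | h | h
      · have := key p hp p' hp' h
        omega
      · apply hne
        exact Prod.ext h (by omega)
      · have := key p' hp' p hp h
        omega
    rw [e1, e2]
    have e3 : ((prs B).filter (fun p => p.1 + p.2 = s)).biUnion (fun p => Ioc (lo p.1 p.2) (hi p.1 p.2)) ⊆ Ioc 0 Q := by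
      intro x hx
      obtain ⟨p, hp, hx⟩ := mem_biUnion.1 hx
      rw [mem_Ioc] at hx ⊢
      have hp1 := mem_prs.1 (mem_filter.1 hp).1
      have := (h1 p.1 p.2 hp1.1 hp1.2).2
      omega
    have e4 := card_le_card e3
    rwa [Nat.card_Ioc, Nat.sub_zero] at e4
  rw [← sum_fiberwise_of_maps_to (s := prs B) (t := range (2 * B)) (g := fun p => p.1 + p.2)
    (f := fun p => hi p.1 p.2 - lo p.1 p.2)]
  · refine (sum_le_card_nsmul _ _ _ hs).trans ?_
    rw [card_range, smul_eq_mul]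
  · intro p hp
    have := mem_prs.1 hp
    rw [mem_range]
    omega

/-- the number of steps in a window -/
theorem steps (B G K e x : ℕ) (hG : 1 ≤ G) (hi : ℕ → ℕ → ℕ)
    (h3 : ∀ i j, i < j → j + 1 < B → hi i j + G ≤ hi i (j + 1)) :
    ((range B).filter (fun l => e < l ∧ x ≤ hi e l ∧ hi e l ≤ x + 2 * K * G)).card ≤ 2 * K + 1 := by
  have hmono : ∀ k j, e < j → j + k < B → hi e j + k * G ≤ hi e (j + k) := by
    intro k
    induction k with
    | zero =>
      intro j _ _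
      simp
    | succ k ih =>
      intro j hj hjk
      have e1 := ih j hj (by omega)
      have e2 := h3 e (j + k) (by omega) (by omega)
      rw [add_mul, one_mul, ← add_assoc, ← add_assoc]
      omega
  rcases ((range B).filter (fun l => e < l ∧ x ≤ hi e l ∧ hi e l ≤ x + 2 * K * G)).eq_empty_or_nonempty with h | h
  · rw [h]
    simp
  · obtain ⟨m, hm, hmin⟩ := exists_min_image _ (fun l => l) h
    have h4 : (range B).filter (fun l => e < l ∧ x ≤ hi e l ∧ hi e l ≤ x + 2 * K * G) ⊆ Icc m (m + 2 * K) := by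
      intro l hl
      have h5 := hmin l hl
      rw [mem_filter, mem_range] at hl hm
      obtain ⟨a1, a2, a3, a4⟩ := hl
      obtain ⟨b1, b2, b3, b4⟩ := hm
      have h6 := hmono (l - m) m b2 (by omega)
      have h7 : m + (l - m) = l := by omega
      rw [h7] at h6
      have h8 : (l - m) * G ≤ 2 * K * G := by omega
      have h9 : l - m ≤ 2 * K := Nat.le_of_mul_le_mul_right h8 (by omega)
      rw [mem_Icc]
      omega
    have h5 := card_le_card h4
    rw [Nat.card_Icc] at h5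
    omega

/-- the pairs of pairs -/
theorem quads (B G K : ℕ) (hG : 1 ≤ G) (lo hi : ℕ → ℕ → ℕ)
    (h3 : ∀ i j, i < j → j + 1 < B → hi i j + G ≤ hi i (j + 1))
    (Gd : Finset (ℕ × ℕ)) (hGd : ∀ p ∈ Gd, p ∈ prs B ∧ hi p.1 p.2 ≤ lo p.1 p.2 + K * G)
    (T : Finset ((ℕ × ℕ) × (ℕ × ℕ)))
    (hT : ∀ t ∈ T, t.1 ∈ Gd ∧ t.2 ∈ Gd ∧ lo t.1.1 t.1.2 ≤ hi t.2.1 t.2.2 ∧ lo t.2.1 t.2.2 ≤ hi t.1.1 t.1.2) :
    T.card ≤ (2 * K + 1) * (T.image (fun t => (t.1, t.2.1))).card := by
  apply card_le_mul_card_image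
  intro u _
  obtain ⟨⟨i, j⟩, e⟩ := u
  refine le_trans ?_ (steps B G K e (lo i j) hG hi h3)
  apply card_le_card_of_injOn (fun t => t.2.2)
  · intro t ht
    rw [mem_coe, mem_filter] at ht
    obtain ⟨ht, he⟩ := ht
    obtain ⟨a1, a2, a3, a4⟩ := hT t ht
    obtain ⟨b1, b2⟩ := hGd t.1 a1
    obtain ⟨c1, c2⟩ := hGd t.2 a2
    rw [Prod.mk.injEq] at he
    obtain ⟨he1, he2⟩ := he
    rw [mem_prs] at c1
    rw [he1] at a3 a4 b2
    rw [he2] at a3 a4 c1 c2
    rw [mem_coe, mem_filter, mem_range]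
    refine ⟨c1.2, c1.1, a3, ?_⟩
    change hi e t.2.2 ≤ lo i j + 2 * K * G
    simp only at a4 b2
    have : 2 * K * G = K * G + K * G := by ring
    omega
  · intro t ht t' ht' h
    rw [mem_coe, mem_filter] at ht ht'
    have e1 := ht.2
    have e2 := ht'.2
    rw [Prod.mk.injEq] at e1 e2
    apply Prod.ext
    · rw [e1.1, e2.1]
    · apply Prod.ext
      · rw [e1.2, e2.2]
      · exact h

/-- second moment -/
theorem moment {α : Type*} [DecidableEq α] (D : Finset α) (Gd : Finset (ℕ × ℕ)) (E : ℕ × ℕ → Finset α)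
    (hE : ∀ p ∈ Gd, E p ⊆ D) :
    (∑ p ∈ Gd, (E p).card) ^ 2 ≤ D.card * ∑ t ∈ Gd ×ˢ Gd, (E t.1 ∩ E t.2).card := by
  have h1 : ∀ S : Finset α, S ⊆ D → S.card = ∑ x ∈ D, if x ∈ S then 1 else 0 := by
    intro S hS
    rw [← Finset.card_filter, Finset.filter_mem_eq_inter, Finset.inter_eq_right.2 hS]
  have h2 : ∑ p ∈ Gd, (E p).card = ∑ x ∈ D, ∑ p ∈ Gd, if x ∈ E p then 1 else 0 := by
    rw [sum_comm]
    exact sum_congr rfl fun p hp => h1 _ (hE p hp)
  have h3 : ∑ t ∈ Gd ×ˢ Gd, (E t.1 ∩ E t.2).card = ∑ x ∈ D, (∑ p ∈ Gd, if x ∈ E p then 1 else 0) ^ 2 := by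
    have h4 : ∑ t ∈ Gd ×ˢ Gd, (E t.1 ∩ E t.2).card =
        ∑ t ∈ Gd ×ˢ Gd, ∑ x ∈ D, if x ∈ E t.1 ∩ E t.2 then 1 else 0 := by
      apply sum_congr rfl
      intro t ht
      exact h1 _ (inter_subset_left.trans (hE _ (mem_product.1 ht).1))
    rw [h4, sum_comm]
    apply sum_congr rfl
    intro x _
    rw [sq, sum_mul_sum, sum_product]
    apply sum_congr rfl
    intro p _
    apply sum_congr rfl
    intro p' _
    simp only [mem_inter]
    split_ifs <;> simp_all
  rw [h2, h3]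
  exact sq_sum_le_card_mul_sum_sq

/-- the abstract statement -/
theorem PIG (C1 a b : ℝ) (hC1 : 0 < C1) (ha : 0 < a) (hb : 0 < b) : ∃ ε δ : ℝ, 0 < ε ∧ 0 < δ ∧
    ∀ (B G : ℕ), 4 ≤ B → 1 ≤ G → ∀ (D : Finset ℝ) (E : ℕ → ℕ → Finset ℝ) (lo hi : ℕ → ℕ → ℕ) (r : ℕ → ℝ),
      (D.card : ℝ) ≤ C1 * B * G →
      (∀ i j, i < j → j < B → E i j ⊆ D ∧ a * G ≤ ((E i j).card : ℝ) ∧ ((E i j).card : ℝ) ≤ b * G) →
      (∀ i j, i < j → j < B → lo i j ≤ hi i j ∧ hi i j ≤ D.card) →
      (∀ i j, i + 1 < j → j + 1 < B → hi (i + 1) j ≤ lo i (j + 1)) →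
      (∀ i j, i < j → j + 1 < B → hi i j + G ≤ hi i (j + 1)) →
      (∀ i j k l, i < j → j < B → k < l → l < B → (E i j ∩ E k l).Nonempty → lo i j ≤ hi k l) →
      (∀ i j k l, i < j → j < B → k < l → l < B →
        ¬ ((r i = r k ∧ r j = r l) ∨ (r i = r l ∧ r j = r k)) → ((E i j ∩ E k l).card : ℝ) ≤ ε * G) →
      ∃ r0, δ * B ≤ (((range B).filter (fun i => r i = r0)).card : ℝ) := by
  obtain ⟨K, hK⟩ := exists_nat_gt (16 * C1)
  have hK0 : (0 : ℝ) < K := by linarith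
  have hKn : 0 < K := by exact_mod_cast hK0
  refine ⟨a ^ 2 / (32 * C1 * (2 * K + 1)), a ^ 2 / (64 * C1 * b * (2 * K + 1)), by positivity, by positivity, ?_⟩
  intro B G hB hG D E lo hi r hD hE h1 h2 h3 h4 h5
  have hBR : (4 : ℝ) ≤ B := by exact_mod_cast hB
  have hGR : (1 : ℝ) ≤ G := by exact_mod_cast hG
  -- the good pairs
  obtain ⟨Gd, hGdef⟩ : ∃ Gd, Gd = (prs B).filter (fun p => hi p.1 p.2 ≤ lo p.1 p.2 + K * G) := ⟨_, rfl⟩
  have hGd : ∀ p ∈ Gd, p ∈ prs B ∧ hi p.1 p.2 ≤ lo p.1 p.2 + K * G := by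
    intro p hp
    rw [hGdef] at hp
    exact mem_filter.1 hp
  have hbad : ((prs B).filter (fun p => ¬ hi p.1 p.2 ≤ lo p.1 p.2 + K * G)).card * (K * G) ≤ 2 * B * D.card := by
    refine le_trans ?_ (anti B D.card lo hi h1 h2)
    rw [← smul_eq_mul]
    refine (card_nsmul_le_sum _ (fun p => hi p.1 p.2 - lo p.1 p.2) _ ?_).trans ?_
    · intro p hp
      have := (mem_filter.1 hp).2
      omega
    · exact sum_le_sum_of_subset (filter_subset _ _)
  have hbad' : 8 * (((prs B).filter (fun p => ¬ hi p.1 p.2 ≤ lo p.1 p.2 + K * G)).card : ℝ) ≤ B ^ 2 := by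
    have e1 : ((((prs B).filter (fun p => ¬ hi p.1 p.2 ≤ lo p.1 p.2 + K * G)).card : ℝ)) * (K * G) ≤
        2 * B * D.card := by exact_mod_cast hbad
    obtain ⟨z, hz⟩ : ∃ z : ℝ, z = (((prs B).filter (fun p => ¬ hi p.1 p.2 ≤ lo p.1 p.2 + K * G)).card : ℝ) := ⟨_, rfl⟩
    rw [← hz] at e1 ⊢
    have hz0 : 0 ≤ z := by rw [hz]; positivity
    have e2 : z * (K * G) ≤ 2 * B * (C1 * B * G) :=
      e1.trans (mul_le_mul_of_nonneg_left hD (by positivity))
    have e3 : z * (16 * C1) * G ≤ z * K * G := by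
      apply mul_le_mul_of_nonneg_right _ (by positivity)
      exact mul_le_mul_of_nonneg_left hK.le hz0
    have e4 : z * (16 * C1) * G ≤ 2 * B * (C1 * B * G) := by linarith
    have e5 : (8 * z) * (2 * C1 * G) ≤ B ^ 2 * (2 * C1 * G) := by linarith
    exact le_of_mul_le_mul_right e5 (by positivity)
  have hGcard : (B : ℝ) ^ 2 ≤ 4 * (Gd.card : ℝ) := by
    have e1 := card_prs B
    have e2 : (Gd.card : ℝ) + (((prs B).filter (fun p => ¬ hi p.1 p.2 ≤ lo p.1 p.2 + K * G)).card : ℝ) =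
        ((prs B).card : ℝ) := by
      rw [hGdef]
      exact_mod_cast card_filter_add_card_filter_not (fun p : ℕ × ℕ => hi p.1 p.2 ≤ lo p.1 p.2 + K * G)
    have e3 : (B : ℝ) * (B - 1) ≤ 2 * ((prs B).card : ℝ) := by
      have : ((B * (B - 1) : ℕ) : ℝ) ≤ ((2 * (prs B).card : ℕ) : ℝ) := by exact_mod_cast e1
      rw [Nat.cast_mul, Nat.cast_sub (by omega)] at this
      push_cast at this
      exact this
    nlinarith
  -- the sum over good pairs
  have hW : a * G * (B ^ 2 / 4) ≤ ((∑ p ∈ Gd, (E p.1 p.2).card : ℕ) : ℝ) := by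
    have e1 : (Gd.card : ℝ) * (a * G) ≤ ∑ p ∈ Gd, ((E p.1 p.2).card : ℝ) := by
      rw [← nsmul_eq_mul]
      apply card_nsmul_le_sum
      intro p hp
      have := mem_prs.1 (hGd p hp).1
      exact (hE p.1 p.2 this.1 this.2).2.1
    push_cast
    refine le_trans ?_ e1
    have : a * G * (B ^ 2 / 4) = (B ^ 2 / 4) * (a * G) := by ring
    rw [this]
    exact mul_le_mul_of_nonneg_right (by linarith) (by positivity)
  have hmom := moment D Gd (fun p => E p.1 p.2) (fun p hp => by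
    have := mem_prs.1 (hGd p hp).1
    exact (hE p.1 p.2 this.1 this.2).1)
  -- the pairs of pairs that meet
  obtain ⟨T, hTdef⟩ : ∃ T, T = (Gd ×ˢ Gd).filter (fun t => (E t.1.1 t.1.2 ∩ E t.2.1 t.2.2).Nonempty) := ⟨_, rfl⟩
  have hsum : ∑ t ∈ Gd ×ˢ Gd, (E t.1.1 t.1.2 ∩ E t.2.1 t.2.2).card =
      ∑ t ∈ T, (E t.1.1 t.1.2 ∩ E t.2.1 t.2.2).card := by
    rw [hTdef]
    symm
    apply sum_subset (filter_subset _ _)
    intro t ht hn
    rw [card_eq_zero, ← not_nonempty_iff_eq_empty]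
    intro hne
    exact hn (mem_filter.2 ⟨ht, hne⟩)
  have hTm : ∀ t ∈ T, t.1 ∈ Gd ∧ t.2 ∈ Gd ∧ lo t.1.1 t.1.2 ≤ hi t.2.1 t.2.2 ∧ lo t.2.1 t.2.2 ≤ hi t.1.1 t.1.2 := by
    intro t ht
    rw [hTdef, mem_filter, mem_product] at ht
    obtain ⟨⟨a1, a2⟩, a3⟩ := ht
    have b1 := mem_prs.1 (hGd _ a1).1
    have b2 := mem_prs.1 (hGd _ a2).1
    refine ⟨a1, a2, h4 _ _ _ _ b1.1 b1.2 b2.1 b2.2 a3, h4 _ _ _ _ b2.1 b2.2 b1.1 b1.2 ?_⟩
    rwa [inter_comm]
  -- the three counts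
  obtain ⟨R2, hR2⟩ : ∃ R2, R2 = ((range B ×ˢ range B).filter (fun u => r u.1 = r u.2)) := ⟨_, rfl⟩
  have hcT : T.card ≤ (2 * K + 1) * B ^ 3 := by
    refine (quads B G K hG lo hi h3 Gd hGd T hTm).trans (Nat.mul_le_mul_left _ ?_)
    have e1 : T.image (fun t => (t.1, t.2.1)) ⊆ (range B ×ˢ range B) ×ˢ range B := by
      intro u hu
      obtain ⟨t, ht, rfl⟩ := mem_image.1 hu
      obtain ⟨a1, a2, _, _⟩ := hTm t ht
      have b1 := mem_prs.1 (hGd _ a1).1
      have b2 := mem_prs.1 (hGd _ a2).1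
      rw [mem_product, mem_product, mem_range, mem_range, mem_range]
      exact ⟨⟨b1.1.trans b1.2, b1.2⟩, b2.1.trans b2.2⟩
    refine (card_le_card e1).trans ?_
    rw [card_product, card_product, card_range]
    apply le_of_eq
    ring
  have hcT1 : (T.filter (fun t => r t.1.1 = r t.2.1)).card ≤ (2 * K + 1) * (R2.card * B) := by
    refine (quads B G K hG lo hi h3 Gd hGd _ (fun t ht => hTm t (mem_filter.1 ht).1)).trans
      (Nat.mul_le_mul_left _ ?_)
    have e1 : ((T.filter (fun t => r t.1.1 = r t.2.1)).image (fun t => (t.1, t.2.1))).card ≤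
        (R2 ×ˢ range B).card := by
      apply card_le_card_of_injOn (fun u => ((u.1.1, u.2), u.1.2))
      · intro u hu
        obtain ⟨t, ht, rfl⟩ := mem_image.1 (mem_coe.1 hu)
        obtain ⟨ht1, ht2⟩ := mem_filter.1 ht
        obtain ⟨a1, a2, _, _⟩ := hTm t ht1
        have b1 := mem_prs.1 (hGd _ a1).1
        have b2 := mem_prs.1 (hGd _ a2).1
        rw [mem_coe, mem_product, hR2, mem_filter, mem_product, mem_range, mem_range, mem_range]
        exact ⟨⟨⟨b1.1.trans b1.2, b2.1.trans b2.2⟩, ht2⟩, b1.2⟩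
      · intro u _ u' _ h
        simp only [Prod.mk.injEq] at h
        exact Prod.ext (Prod.ext h.1.1 h.2) h.1.2
    rwa [card_product, card_range] at e1
  have hcT2 : (T.filter (fun t => r t.1.2 = r t.2.1)).card ≤ (2 * K + 1) * (R2.card * B) := by
    refine (quads B G K hG lo hi h3 Gd hGd _ (fun t ht => hTm t (mem_filter.1 ht).1)).trans
      (Nat.mul_le_mul_left _ ?_)
    have e1 : ((T.filter (fun t => r t.1.2 = r t.2.1)).image (fun t => (t.1, t.2.1))).card ≤
        (R2 ×ˢ range B).card := by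
      apply card_le_card_of_injOn (fun u => ((u.1.2, u.2), u.1.1))
      · intro u hu
        obtain ⟨t, ht, rfl⟩ := mem_image.1 (mem_coe.1 hu)
        obtain ⟨ht1, ht2⟩ := mem_filter.1 ht
        obtain ⟨a1, a2, _, _⟩ := hTm t ht1
        have b1 := mem_prs.1 (hGd _ a1).1
        have b2 := mem_prs.1 (hGd _ a2).1
        rw [mem_coe, mem_product, hR2, mem_filter, mem_product, mem_range, mem_range, mem_range]
        exact ⟨⟨⟨b1.2, b2.1.trans b2.2⟩, ht2⟩, b1.1.trans b1.2⟩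
      · intro u _ u' _ h
        simp only [Prod.mk.injEq] at h
        exact Prod.ext (Prod.ext h.2 h.1.1) h.1.2
    rwa [card_product, card_range] at e1
  -- the upper bound
  have hup : ∑ t ∈ T, ((E t.1.1 t.1.2 ∩ E t.2.1 t.2.2).card : ℝ) ≤
      a ^ 2 / (32 * C1 * (2 * K + 1)) * G * ((2 * K + 1) * B ^ 3) + 2 * (b * G * ((2 * K + 1) * (R2.card * B))) := by
    have e1 : ∀ t ∈ T, ((E t.1.1 t.1.2 ∩ E t.2.1 t.2.2).card : ℝ) ≤
        a ^ 2 / (32 * C1 * (2 * K + 1)) * G + ((if r t.1.1 = r t.2.1 then b * G else 0) +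
          (if r t.1.2 = r t.2.1 then b * G else 0)) := by
      intro t ht
      obtain ⟨a1, a2, _, _⟩ := hTm t ht
      have b1 := mem_prs.1 (hGd _ a1).1
      have b2 := mem_prs.1 (hGd _ a2).1
      have c1 : ((E t.1.1 t.1.2 ∩ E t.2.1 t.2.2).card : ℝ) ≤ b * G := by
        refine le_trans ?_ (hE _ _ b1.1 b1.2).2.2
        exact_mod_cast card_le_card inter_subset_left
      have c2 : 0 ≤ a ^ 2 / (32 * C1 * (2 * K + 1)) * G := by positivity
      have c3 : 0 ≤ b * G := by positivity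
      by_cases d1 : r t.1.1 = r t.2.1
      · rw [if_pos d1]
        split_ifs <;> linarith
      · by_cases d2 : r t.1.2 = r t.2.1
        · rw [if_pos d2, if_neg d1]
          linarith
        · rw [if_neg d1, if_neg d2]
          have := h5 _ _ _ _ b1.1 b1.2 b2.1 b2.2 (by
            rintro (h | h)
            · exact d1 h.1
            · exact d2 h.2)
          linarith
    refine (sum_le_sum e1).trans ?_
    rw [sum_add_distrib, sum_add_distrib, sum_const, nsmul_eq_mul, ← sum_filter, ← sum_filter, sum_const,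
      sum_const, nsmul_eq_mul, nsmul_eq_mul]
    have f1 : (T.card : ℝ) ≤ (2 * K + 1) * B ^ 3 := by exact_mod_cast hcT
    have f2 : ((T.filter (fun t => r t.1.1 = r t.2.1)).card : ℝ) ≤ (2 * K + 1) * (R2.card * B) := by
      exact_mod_cast hcT1
    have f3 : ((T.filter (fun t => r t.1.2 = r t.2.1)).card : ℝ) ≤ (2 * K + 1) * (R2.card * B) := by
      exact_mod_cast hcT2
    have g1 := mul_le_mul_of_nonneg_right f1 (show 0 ≤ a ^ 2 / (32 * C1 * (2 * K + 1)) * G by positivity)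
    have g2 := mul_le_mul_of_nonneg_right f2 (show 0 ≤ b * G by positivity)
    have g3 := mul_le_mul_of_nonneg_right f3 (show 0 ≤ b * G by positivity)
    linarith
  -- conclusion on R2
  have hR : a ^ 2 / (64 * C1 * b * (2 * K + 1)) * B ^ 2 ≤ (R2.card : ℝ) := by
    have e1 : ((∑ p ∈ Gd, (E p.1 p.2).card : ℕ) : ℝ) ^ 2 ≤
        D.card * ∑ t ∈ T, ((E t.1.1 t.1.2 ∩ E t.2.1 t.2.2).card : ℝ) := by
      rw [hsum] at hmom
      exact_mod_cast hmom
    have e2 : (a * G * (B ^ 2 / 4)) ^ 2 ≤ ((∑ p ∈ Gd, (E p.1 p.2).card : ℕ) : ℝ) ^ 2 :=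
      pow_le_pow_left₀ (by positivity) hW 2
    obtain ⟨s, hs⟩ : ∃ s : ℝ, s = ∑ t ∈ T, ((E t.1.1 t.1.2 ∩ E t.2.1 t.2.2).card : ℝ) := ⟨_, rfl⟩
    rw [← hs] at e1 hup
    have hs0 : 0 ≤ s := by
      rw [hs]
      exact sum_nonneg fun _ _ => by positivity
    have e3 : (a * G * (B ^ 2 / 4)) ^ 2 ≤ C1 * B * G *
        (a ^ 2 / (32 * C1 * (2 * K + 1)) * G * ((2 * K + 1) * B ^ 3) +
          2 * (b * G * ((2 * K + 1) * (R2.card * B)))) := by
      calc (a * G * (B ^ 2 / 4)) ^ 2 ≤ D.card * s := e2.trans e1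
        _ ≤ C1 * B * G * s := mul_le_mul_of_nonneg_right hD hs0
        _ ≤ _ := mul_le_mul_of_nonneg_left hup (by positivity)
    have hk : (0 : ℝ) < 2 * K + 1 := by positivity
    have e4 : C1 * B * G * (a ^ 2 / (32 * C1 * (2 * K + 1)) * G * ((2 * K + 1) * B ^ 3) +
          2 * (b * G * ((2 * K + 1) * (R2.card * B)))) =
        B ^ 2 * G ^ 2 * (a ^ 2 / 32 * B ^ 2 + 2 * C1 * b * (2 * K + 1) * R2.card) := by
      field_simp
    have e5 : (a * G * (B ^ 2 / 4)) ^ 2 = B ^ 2 * G ^ 2 * (a ^ 2 / 16 * B ^ 2) := by ring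
    rw [e4, e5] at e3
    have e6 : a ^ 2 / 16 * B ^ 2 ≤ a ^ 2 / 32 * B ^ 2 + 2 * C1 * b * (2 * K + 1) * R2.card :=
      le_of_mul_le_mul_left e3 (by positivity)
    rw [div_mul_eq_mul_div, div_le_iff₀ (by positivity)]
    linarith
  -- pigeonhole
  have hRs : (R2.card : ℝ) = ∑ i ∈ range B, (((range B).filter (fun k => r k = r i)).card : ℝ) := by
    have e1 : R2.card = ∑ i ∈ range B, ((range B).filter (fun k => r k = r i)).card := by
      rw [hR2, card_filter, sum_product]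
      apply sum_congr rfl
      intro i _
      rw [card_filter]
      apply sum_congr rfl
      intro k _
      simp only [eq_comm]
    exact_mod_cast e1
  by_contra hcon
  push Not at hcon
  have e1 : ∑ i ∈ range B, (((range B).filter (fun k => r k = r i)).card : ℝ) <
      ∑ i ∈ range B, a ^ 2 / (64 * C1 * b * (2 * K + 1)) * B := by
    apply sum_lt_sum_of_nonempty
    · exact ⟨0, mem_range.2 (by omega)⟩
    · intro i _
      exact hcon (r i)
  rw [← hRs, sum_const, card_range, nsmul_eq_mul] at e1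
  have e2 : (B : ℝ) * (a ^ 2 / (64 * C1 * b * (2 * K + 1)) * B) = a ^ 2 / (64 * C1 * b * (2 * K + 1)) * B ^ 2 := by
    ring
  linarith

end Pool.Agent.H71.PIG
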