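import Pool.Agent.H3.FQ.FAM
import Pool.Agent.H3.FQ.LAWC
import Pool.Agent.H3.FQ.CH
import Pool.Agent.H71.PIG

/-!
# WIN: section 7 of `H3_78a685_FULL.md` (windows, one circle)
-/

set_option autoImplicit false

namespace Pool.Agent.H71.WIN

open scoped Pointwise
open Finset
open Classical
open Pool.Agent.H3.FQ

/-- small tripling of the difference set -/
theorem trip (Θ : Finset Real.Angle) (hΘ : Θ.Nonempty) (c K G : ℝ) (hc : 0 < c) (hG : 0 < G)
    (h1 : c * G ≤ (Θ.card : ℝ)) (h2 : ((Θ - Θ).card : ℝ) ≤ K * G) :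
    ((((Θ - Θ) + (Θ - Θ) - (Θ - Θ)).card : ℕ) : ℝ) ≤ (K / c) ^ 6 * K * G := by
  have hcard : (0 : ℝ) < (Θ.card : ℝ) := by exact_mod_cast hΘ.card_pos
  have hsub : (Θ - Θ) + (Θ - Θ) - (Θ - Θ) ⊆ 3 • Θ - 3 • Θ := by
    have e3 : 3 • Θ = Θ + Θ + Θ := by
      rw [show 3 = 2 + 1 from rfl, succ_nsmul, two_nsmul]
    intro x hx
    obtain ⟨u, hu, w, hw, rfl⟩ := mem_sub.1 hx
    obtain ⟨s, hs, t, ht, rfl⟩ := mem_add.1 hu
    obtain ⟨a, ha, b, hb, rfl⟩ := mem_sub.1 hs
    obtain ⟨a', ha', b', hb', rfl⟩ := mem_sub.1 ht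
    obtain ⟨a'', ha'', b'', hb'', rfl⟩ := mem_sub.1 hw
    have e : a - b + (a' - b') - (a'' - b'') = (a + a' + b'') - (b + b' + a'') := by abel
    rw [e, e3]
    exact sub_mem_sub (add_mem_add (add_mem_add ha ha') hb'') (add_mem_add (add_mem_add hb hb') ha'')
  have hP := pluennecke_ruzsa_inequality_nsmul_sub_nsmul_sub hΘ Θ 3 3
  have hP' : ((3 • Θ - 3 • Θ).card : ℝ) ≤ ((Θ - Θ).card / Θ.card : ℝ) ^ (3 + 3) * Θ.card := by
    have h := (NNRat.cast_le (K := ℝ)).2 hP
    push_cast at h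
    exact h
  have h3 : (Θ.card : ℝ) ≤ K * G := by
    refine le_trans ?_ h2
    obtain ⟨z, hz⟩ := hΘ
    have : Θ.card ≤ (Θ - Θ).card := by
      apply card_le_card_of_injOn (fun x => x - z)
      · intro x hx
        exact mem_coe.2 (sub_mem_sub (mem_coe.1 hx) hz)
      · intro x _ y _ h
        exact sub_left_injective h
    exact_mod_cast this
  have h4 : ((Θ - Θ).card / Θ.card : ℝ) ≤ K / c := by
    rw [div_le_div_iff₀ hcard hc]
    have hK : 0 ≤ K := by
      by_contra hneg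
      have : K * G < 0 := mul_neg_of_neg_of_pos (not_le.1 hneg) hG
      linarith
    calc ((Θ - Θ).card : ℝ) * c ≤ K * G * c := mul_le_mul_of_nonneg_right h2 hc.le
      _ = K * (c * G) := by ring
      _ ≤ K * Θ.card := mul_le_mul_of_nonneg_left h1 hK
  calc ((((Θ - Θ) + (Θ - Θ) - (Θ - Θ)).card : ℕ) : ℝ) ≤ ((3 • Θ - 3 • Θ).card : ℝ) := by
        exact_mod_cast card_le_card hsub
    _ ≤ ((Θ - Θ).card / Θ.card : ℝ) ^ (3 + 3) * Θ.card := hP'
    _ ≤ (K / c) ^ (3 + 3) * (K * G) := by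
        apply mul_le_mul (pow_le_pow_left₀ (by positivity) h4 _) h3 hcard.le
        exact (pow_nonneg (le_trans (by positivity) h4) _)
    _ = (K / c) ^ 6 * K * G := by ring

/-- spaced elements of a finite set of natural numbers -/
theorem pick (P : Finset ℕ) (G : ℕ) (hG : 1 ≤ G) : ∃ p : ℕ → ℕ, (∀ b, b < P.card / G → p b ∈ P) ∧
    ∀ b, b + 1 < P.card / G → p b + G ≤ p (b + 1) := by
  have hf : (Set.ofPred (fun x => x ∈ P)).Finite := P.finite_toSet
  have hft : hf.toFinset = P := by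
    ext x
    simp
  have hlt : ∀ b, b < P.card / G → b * G < P.card := by
    intro b hb
    have h1 : (b + 1) * G ≤ P.card := (Nat.mul_le_mul_right G hb).trans (Nat.div_mul_le_self _ _)
    rw [add_mul, one_mul] at h1
    omega
  have hstep : ∀ k n, n + k < P.card → Nat.nth (fun x => x ∈ P) n + k ≤ Nat.nth (fun x => x ∈ P) (n + k) := by
    intro k
    induction k with
    | zero => intro n _; simp
    | succ k ih =>
      intro n hn
      have h1 := ih n (by omega)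
      have h2 : Nat.nth (fun x => x ∈ P) (n + k) < Nat.nth (fun x => x ∈ P) (n + (k + 1)) :=
        Nat.nth_lt_nth_of_lt_card hf (by omega) (by rw [hft]; exact hn)
      omega
  refine ⟨fun b => Nat.nth (fun x => x ∈ P) (b * G), ?_, ?_⟩
  · intro b hb
    exact Nat.nth_mem_of_lt_card hf (by rw [hft]; exact hlt b hb)
  · intro b hb
    have h1 := hlt (b + 1) hb
    have h2 := hstep G (b * G) (by rw [add_mul, one_mul] at h1; exact h1)
    have h3 : (b + 1) * G = b * G + G := by ring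
    change Nat.nth (fun x => x ∈ P) (b * G) + G ≤ Nat.nth (fun x => x ∈ P) ((b + 1) * G)
    rw [h3]
    exact h2

/-- popular points -/
theorem popular (q : ℕ) (Y : Finset (ℂ × ℂ)) (dm : ℂ × ℂ → Finset ℕ) (ρ : ℝ)
    (hY : 0 < Y.card) (hdm : ∀ y ∈ Y, dm y ⊆ range q ∧ ρ * q ≤ ((dm y).card : ℝ)) :
    ρ / 2 * q ≤ (((range q).filter (fun p => ρ / 2 * Y.card ≤ ((Y.filter (fun y => p ∈ dm y)).card : ℝ))).card : ℝ) := by
  obtain ⟨P, hP⟩ : ∃ P, P = (range q).filter (fun p => ρ / 2 * Y.card ≤ ((Y.filter (fun y => p ∈ dm y)).card : ℝ)) :=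
    ⟨_, rfl⟩
  rw [← hP]
  have h1 : ∑ y ∈ Y, (dm y).card = ∑ p ∈ range q, (Y.filter (fun y => p ∈ dm y)).card := by
    have e1 : ∀ y ∈ Y, (dm y).card = ∑ p ∈ range q, if p ∈ dm y then 1 else 0 := by
      intro y hy
      rw [← card_filter, filter_mem_eq_inter, inter_eq_right.2 (hdm y hy).1]
    rw [sum_congr rfl e1, sum_comm]
    apply sum_congr rfl
    intro p _
    rw [card_filter]
  have h2 : (Y.card : ℝ) * (ρ * q) ≤ ∑ p ∈ range q, ((Y.filter (fun y => p ∈ dm y)).card : ℝ) := by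
    have e1 : (Y.card : ℝ) * (ρ * q) ≤ ∑ y ∈ Y, ((dm y).card : ℝ) := by
      rw [← nsmul_eq_mul]
      exact card_nsmul_le_sum _ _ _ (fun y hy => (hdm y hy).2)
    have e2 : ∑ y ∈ Y, ((dm y).card : ℝ) = ∑ p ∈ range q, ((Y.filter (fun y => p ∈ dm y)).card : ℝ) := by
      exact_mod_cast h1
    rwa [e2] at e1
  have hYR : (0 : ℝ) < Y.card := by exact_mod_cast hY
  have h3 : ∑ p ∈ range q, ((Y.filter (fun y => p ∈ dm y)).card : ℝ) ≤
      ∑ p ∈ range q, ((if p ∈ P then (Y.card : ℝ) else 0) + max (ρ / 2 * Y.card) 0) := by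
    apply sum_le_sum
    intro p hp
    by_cases h : p ∈ P
    · rw [if_pos h]
      have e1 : ((Y.filter (fun y => p ∈ dm y)).card : ℝ) ≤ Y.card := by
        exact_mod_cast card_filter_le _ _
      linarith [le_max_right (ρ / 2 * (Y.card : ℝ)) 0]
    · rw [if_neg h, zero_add]
      have e1 : ¬ (ρ / 2 * Y.card ≤ ((Y.filter (fun y => p ∈ dm y)).card : ℝ)) := by
        intro hle
        exact h (by rw [hP]; exact mem_filter.2 ⟨hp, hle⟩)
      exact (not_le.1 e1).le.trans (le_max_left _ _)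
  rcases le_or_gt ρ 0 with hρ | hρ
  · have : ρ / 2 * q ≤ 0 := mul_nonpos_of_nonpos_of_nonneg (by linarith) (by positivity)
    exact this.trans (by positivity)
  · rw [max_eq_left (by positivity), sum_add_distrib, ← sum_filter, sum_const, sum_const, card_range,
      nsmul_eq_mul, nsmul_eq_mul] at h3
    have h4 : (range q).filter (fun p => p ∈ P) = P := by
      rw [filter_mem_eq_inter, inter_eq_right.2]
      rw [hP]
      exact filter_subset _ _
    rw [h4] at h3
    have h5 : (ρ / 2 * q) * (Y.card : ℝ) ≤ (P.card : ℝ) * Y.card := by linarith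
    exact le_of_mul_le_mul_right h5 hYR

theorem mono_le {q : ℕ} {v : ℕ → ℂ} (hv : Chain q v) {a b c d : ℕ} (hab : a ≤ b) (hbc : b < c) (hcd : c ≤ d)
    (hd : d < q) : dist (v b) (v c) ≤ dist (v a) (v d) := by
  have h1 : dist (v b) (v c) ≤ dist (v b) (v d) := by
    rcases hcd.eq_or_lt with h | h
    · rw [h]
    · exact (mon1 hv hbc h hd).le
  have h2 : dist (v b) (v d) ≤ dist (v a) (v d) := by
    rcases hab.eq_or_lt with h | h
    · rw [h]
    · exact (mon2 hv h (hbc.trans_le hcd) hd).le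
  exact h1.trans h2

/-- the window behind the point `p`: images of `v p` under the family -/
noncomputable def wd (q : ℕ) (v : ℕ → ℂ) (G : ℕ) (Y : Finset (ℂ × ℂ)) (p : ℕ) : Finset ℕ :=
  (range q).filter (fun j => p < j ∧ j ≤ p + G ∧ ∃ y ∈ Y, v j = act y (v p))

theorem mem_wd {q : ℕ} {v : ℕ → ℂ} {G : ℕ} {Y : Finset (ℂ × ℂ)} {p j : ℕ} :
    j ∈ wd q v G Y p ↔ j < q ∧ p < j ∧ j ≤ p + G ∧ ∃ y ∈ Y, v j = act y (v p) := by
  unfold wd
  rw [mem_filter, mem_range]

theorem act_sub {y : ℂ × ℂ} {O1 O2 z : ℂ} (h : act y O1 = O2) : act y z - O2 = y.1 * (z - O1) := by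
  rw [← h]
  unfold act
  ring

theorem wd_onc {q : ℕ} {v : ℕ → ℂ} {G : ℕ} {Y : Finset (ℂ × ℂ)} {O1 O2 : ℂ} (p : ℕ)
    (hY : ∀ y ∈ Y, ‖y.1‖ = 1 ∧ act y O1 = O2) (hp : v p ≠ O1) :
    onc v O2 (Y.image ag) (dist (v p) O1) ((v p - O1).arg : Real.Angle) (wd q v G Y p) := by
  intro j hj
  obtain ⟨_, _, _, y, hy, hj⟩ := mem_wd.1 hj
  obtain ⟨h1, h2⟩ := hY y hy
  constructor
  · rw [hj, dist_eq_norm, act_sub h2, norm_mul, h1, one_mul, dist_eq_norm]
  · refine ⟨ag y, mem_image_of_mem _ hy, ?_⟩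
    rw [hj, act_sub h2]
    unfold ag
    have h3 : y.1 ≠ 0 := by
      intro h0
      rw [h0, norm_zero] at h1
      norm_num at h1
    rw [Complex.arg_mul_coe_angle h3 (sub_ne_zero.2 hp), add_comm]

theorem wd_card {q : ℕ} {v : ℕ → ℂ} {G : ℕ} {Y : Finset (ℂ × ℂ)} {O1 O2 : ℂ} (p : ℕ)
    (hY : ∀ y ∈ Y, ‖y.1‖ = 1 ∧ act y O1 = O2) (hinj : ∀ y ∈ Y, ∀ z ∈ Y, y.1 = z.1 → y = z) (hp : v p ≠ O1) :
    (Y.filter (fun y => p ∈ dom q v G y)).card ≤ (wd q v G Y p).card := by
  have h1 : ∀ y : ℂ × ℂ, ∃ j, p ∈ dom q v G y → (p < j ∧ j ≤ p + G ∧ j < q ∧ v j = act y (v p)) := by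
    intro y
    by_cases h : p ∈ dom q v G y
    · unfold dom at h
      obtain ⟨j, hj⟩ := (mem_filter.1 h).2
      exact ⟨j, fun _ => hj⟩
    · exact ⟨0, fun h' => absurd h' h⟩
  choose f hf using h1
  apply card_le_card_of_injOn f
  · intro y hy
    obtain ⟨hy1, hy2⟩ := mem_filter.1 (mem_coe.1 hy)
    obtain ⟨a1, a2, a3, a4⟩ := hf y hy2
    exact mem_coe.2 (mem_wd.2 ⟨a3, a1, a2, y, hy1, a4⟩)
  · intro y hy z hz h
    obtain ⟨hy1, hy2⟩ := mem_filter.1 (mem_coe.1 hy)
    obtain ⟨hz1, hz2⟩ := mem_filter.1 (mem_coe.1 hz)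
    obtain ⟨_, _, _, a4⟩ := hf y hy2
    obtain ⟨_, _, _, b4⟩ := hf z hz2
    rw [h] at a4
    have h2 : act y (v p) - O2 = act z (v p) - O2 := by rw [← a4, ← b4]
    rw [act_sub (hY y hy1).2, act_sub (hY z hz1).2] at h2
    exact hinj y hy1 z hz1 (mul_right_cancel₀ (sub_ne_zero.2 hp) h2)

/-- ranks -/
noncomputable def rk (D : Finset ℝ) (x : ℝ) : ℕ := (D.filter (fun d => d ≤ x)).card

theorem rk_mono (D : Finset ℝ) {x y : ℝ} (h : x ≤ y) : rk D x ≤ rk D y := by
  unfold rk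
  apply card_le_card
  intro d hd
  rw [mem_filter] at hd ⊢
  exact ⟨hd.1, hd.2.trans h⟩

theorem rk_le (D : Finset ℝ) (x : ℝ) : rk D x ≤ D.card := card_filter_le _ _

theorem rk_jump {q : ℕ} {v : ℕ → ℂ} (hv : Chain q v) {a b c : ℕ} (hab : a < b) (hbc : b ≤ c) (hc : c < q) :
    rk (dD q v) (dist (v a) (v b)) + (c - b) ≤ rk (dD q v) (dist (v a) (v c)) := by
  unfold rk
  have h1 : ((Ioc b c).image (fun k => dist (v a) (v k))).card = c - b := by
    rw [card_image_of_injOn, Nat.card_Ioc]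
    intro k hk l hl h
    rw [mem_coe, mem_Ioc] at hk hl
    rcases lt_trichotomy k l with h2 | h2 | h2
    · exact absurd h (mon1 hv (hab.trans hk.1) h2 (by omega)).ne
    · exact h2
    · exact absurd h (mon1 hv (hab.trans hl.1) h2 (by omega)).ne'
  have h2 : Disjoint ((dD q v).filter (fun d => d ≤ dist (v a) (v b))) ((Ioc b c).image (fun k => dist (v a) (v k))) := by
    rw [disjoint_left]
    intro x hx hx'
    obtain ⟨k, hk, rfl⟩ := mem_image.1 hx'
    rw [mem_Ioc] at hk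
    have h3 := (mem_filter.1 hx).2
    have h4 := mon1 hv hab hk.1 (by omega)
    linarith
  rw [← h1, ← card_union_of_disjoint h2]
  apply card_le_card
  intro x hx
  rcases mem_union.1 hx with h | h
  · rw [mem_filter] at h ⊢
    exact ⟨h.1, h.2.trans (mono_le hv le_rfl hab hbc hc)⟩
  · obtain ⟨k, hk, rfl⟩ := mem_image.1 h
    rw [mem_Ioc] at hk
    rw [mem_filter]
    refine ⟨?_, mono_le hv le_rfl (hab.trans hk.1) hk.2 hc⟩
    unfold dD
    rw [mem_image]
    refine ⟨(a, k), ?_, rfl⟩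
    rw [mem_filter, mem_product, mem_range, mem_range]
    exact ⟨⟨by omega, by omega⟩, hab.trans hk.1⟩

/-- distances between two windows: membership -/
theorem mem_dst {v : ℕ → ℂ} {W W' : Finset ℕ} {x : ℝ} :
    x ∈ dst v W W' ↔ ∃ a ∈ W, ∃ b ∈ W', dist (v a) (v b) = x := by
  unfold dst
  rw [mem_image]
  constructor
  · rintro ⟨p, hp, h⟩
    rw [mem_product] at hp
    exact ⟨p.1, hp.1, p.2, hp.2, h⟩
  · rintro ⟨a, ha, b, hb, h⟩
    exact ⟨(a, b), mem_product.2 ⟨ha, hb⟩, h⟩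

theorem dst_card {q : ℕ} {v : ℕ → ℂ} (hv : Chain q v) {W W' : Finset ℕ} (hW : W.Nonempty)
    (hlt : ∀ a ∈ W, ∀ b ∈ W', a < b ∧ b < q) : W'.card ≤ (dst v W W').card := by
  obtain ⟨a, ha⟩ := hW
  apply card_le_card_of_injOn (fun b => dist (v a) (v b))
  · intro b hb
    exact mem_coe.2 (mem_dst.2 ⟨a, ha, b, mem_coe.1 hb, rfl⟩)
  · intro k hk l hl h
    have h1 := hlt a ha k (mem_coe.1 hk)
    have h2 := hlt a ha l (mem_coe.1 hl)
    rcases lt_trichotomy k l with h3 | h3 | h3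
    · exact absurd h (mon1 hv h1.1 h3 h2.2).ne
    · exact h3
    · exact absurd h (mon1 hv h2.1 h3 h1.2).ne'

theorem dst_sub {q : ℕ} {v : ℕ → ℂ} {W W' : Finset ℕ}
    (hlt : ∀ a ∈ W, ∀ b ∈ W', a < b ∧ b < q) : dst v W W' ⊆ dD q v := by
  intro x hx
  obtain ⟨a, ha, b, hb, rfl⟩ := mem_dst.1 hx
  have h1 := hlt a ha b hb
  unfold dD
  rw [mem_image]
  refine ⟨(a, b), ?_, rfl⟩
  rw [mem_filter, mem_product, mem_range, mem_range]
  exact ⟨⟨by omega, by omega⟩, h1.1⟩

theorem WIN (C : ℕ) (hC : 1 ≤ C) (ρ c K : ℝ) (hρ : 0 < ρ) (hc : 0 < c) (hK : 0 < K) : ∃ δ : ℝ, 0 < δ ∧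
    ∃ G0 : ℕ, ∀ G ≥ G0, ∃ q0 : ℕ, ∀ (q : ℕ) (v : ℕ → ℂ), q0 ≤ q → Chain q v → (dD q v).card ≤ C * q →
      fam q v G ρ c K → ∃ (O : ℂ) (r : ℝ), 0 < r ∧
        δ * q ≤ (((range q).filter (fun j => dist (v j) O = r)).card : ℝ) := by
  have hCR : (1 : ℝ) ≤ C := by exact_mod_cast hC
  obtain ⟨ε, δ, hε, hδ, hPIG⟩ := Pool.Agent.H71.PIG.PIG (4 * C / ρ) (ρ / 2 * c) K (by positivity) (by positivity) hK
  refine ⟨δ * (ρ / 2 * c) * (ρ / 4), by positivity, ?_⟩
  obtain ⟨G0, hG0⟩ := exists_nat_gt (4477456 * ((K / c) ^ 6 * K) ^ 3 / ε ^ 4)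
  refine ⟨max G0 1, ?_⟩
  intro G hG
  have hG1 : 1 ≤ G := (le_max_right _ _).trans hG
  have hGR : (1 : ℝ) ≤ G := by exact_mod_cast hG1
  have hGG : 4477456 * ((K / c) ^ 6 * K) ^ 3 / ε ^ 4 < G := by
    refine hG0.trans_le ?_
    exact_mod_cast (le_max_left _ _).trans hG
  obtain ⟨q0, hq0⟩ := exists_nat_gt (16 * (2 * (G : ℝ) + 1) / ρ)
  refine ⟨q0, ?_⟩
  intro q v hq hv hD hfam
  have hqR : 16 * (2 * (G : ℝ) + 1) / ρ < q := hq0.trans_le (by exact_mod_cast hq)
  have hqρ : 16 * (2 * (G : ℝ) + 1) < ρ * q := by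
    rw [div_lt_iff₀ hρ] at hqR
    linarith
  obtain ⟨O1, O2, Y, hY, hinj, hYc, hYd⟩ := hfam
  have hY' : ∀ y ∈ Y, ‖y.1‖ = 1 ∧ act y O1 = O2 := fun y hy => ⟨(hY y hy).1, (hY y hy).2.1⟩
  have hcG : 0 < c * G := by positivity
  have hYpos : 0 < Y.card := by
    have : (0 : ℝ) < Y.card := hcG.trans_le hYc
    exact_mod_cast this
  -- the angles
  obtain ⟨Θ, hΘ⟩ : ∃ Θ, Θ = Y.image ag := ⟨_, rfl⟩
  rw [← hΘ] at hYd
  have hΘc : Θ.card = Y.card := by
    rw [hΘ]
    apply card_image_of_injOn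
    intro y hy z hz h
    apply hinj y (mem_coe.1 hy) z (mem_coe.1 hz)
    have h1 := (hY y (mem_coe.1 hy)).1
    have h2 := (hY z (mem_coe.1 hz)).1
    unfold ag at h
    rw [Complex.arg_coe_angle_eq_iff] at h
    exact Complex.ext_norm_arg (by rw [h1, h2]) h
  have hΘne : Θ.Nonempty := by
    rw [← card_pos, hΘc]
    exact hYpos
  have htrip := trip Θ hΘne c K G hc (by linarith) (by rw [hΘc]; exact hYc) hYd
  -- the popular points
  have hpop := popular q Y (dom q v G) ρ hYpos (fun y hy => ⟨by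
    unfold dom
    exact filter_subset _ _, (hY y hy).2.2⟩)
  obtain ⟨P, hP⟩ : ∃ P, P = (range q).filter (fun p => ρ / 2 * Y.card ≤
    ((Y.filter (fun y => p ∈ dom q v G y)).card : ℝ)) := ⟨_, rfl⟩
  rw [← hP] at hpop
  obtain ⟨P', hP'⟩ : ∃ P', P' = P.filter (fun p => p + G < q ∧ v p ≠ O1) := ⟨_, rfl⟩
  have hPsub : P ⊆ range q := by
    rw [hP]
    exact filter_subset _ _
  have hP'c : P.card ≤ P'.card + (G + 1) := by
    have h1 : P \ P' ⊆ Ico (q - G) q ∪ (range q).filter (fun p => v p = O1) := by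
      intro p hp
      rw [mem_sdiff, hP', mem_filter] at hp
      obtain ⟨hp1, hp2⟩ := hp
      have hp3 := mem_range.1 (hPsub hp1)
      rw [mem_union, mem_Ico, mem_filter, mem_range]
      by_cases h : p + G < q
      · right
        refine ⟨hp3, ?_⟩
        by_contra hne
        exact hp2 ⟨hp1, h, hne⟩
      · left
        omega
    have h2 : ((range q).filter (fun p => v p = O1)).card ≤ 1 := by
      rw [card_le_one]
      intro a ha b hb
      rw [mem_filter, mem_range] at ha hb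
      exact Chain_inj hv ha.1 hb.1 (by rw [ha.2, hb.2])
    have h3 := (card_le_card h1).trans (card_union_le _ _)
    rw [Nat.card_Ico] at h3
    have h4 := card_sdiff_add_card P P'
    have h5 : P'.card ≤ (P ∪ P').card := card_le_card subset_union_right
    have h6 : P.card ≤ (P ∪ P').card := card_le_card subset_union_left
    have h7 : (P ∪ P').card = (P \ P').card + P'.card := by omega
    omega
  -- spaced points
  obtain ⟨p, hp1, hp2⟩ := pick P' G hG1
  obtain ⟨B, hB⟩ : ∃ B, B = P'.card / G := ⟨_, rfl⟩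
  rw [← hB] at hp1 hp2
  have hBG : ρ / 4 * q ≤ B * G := by
    have h1 : P'.card < (B + 1) * G := by
      rw [hB]
      have := Nat.lt_div_mul_add (a := P'.card) (b := G) hG1
      rw [add_mul, one_mul]
      exact this
    have h2 : (P'.card : ℝ) ≤ (B + 1) * G := by exact_mod_cast h1.le
    have h3 : (P.card : ℝ) ≤ P'.card + (G + 1) := by exact_mod_cast hP'c
    linarith
  have hB4 : 4 ≤ B := by
    have h1 : (4 : ℝ) * G ≤ B * G := by linarith
    have h2 : (4 : ℝ) ≤ B := le_of_mul_le_mul_right h1 (by linarith)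
    exact_mod_cast h2
  have hpP : ∀ b, b < B → p b + G < q ∧ v (p b) ≠ O1 ∧ ρ / 2 * Y.card ≤
      ((Y.filter (fun y => p b ∈ dom q v G y)).card : ℝ) := by
    intro b hb
    have h1 := hp1 b hb
    rw [hP', mem_filter] at h1
    obtain ⟨h2, h3, h4⟩ := h1
    rw [hP, mem_filter] at h2
    exact ⟨h3, h4, h2.2⟩
  have hpm : ∀ k b, b + k < B → p b + k * G ≤ p (b + k) := by
    intro k
    induction k with
    | zero => intro b _; simp
    | succ k ih =>
      intro b hb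
      have h1 := ih b (by omega)
      have h2 := hp2 (b + k) (by omega)
      have h3 : b + (k + 1) = b + k + 1 := by ring
      rw [h3, add_mul, one_mul]
      omega
  have hpm' : ∀ i j, i < j → j < B → p i + G ≤ p j := by
    intro i j hij hj
    have h1 := hpm (j - i) i (by omega)
    have h2 : i + (j - i) = j := by omega
    rw [h2] at h1
    have h3 : 1 * G ≤ (j - i) * G := Nat.mul_le_mul_right G (by omega)
    omega
  -- the windows
  obtain ⟨W, hW⟩ : ∃ W : ℕ → Finset ℕ, W = fun b => wd q v G Y (p b) := ⟨_, rfl⟩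
  have hWm : ∀ b, ∀ j ∈ W b, j < q ∧ p b < j ∧ j ≤ p b + G := by
    intro b j hj
    rw [hW] at hj
    obtain ⟨h1, h2, h3, _⟩ := mem_wd.1 hj
    exact ⟨h1, h2, h3⟩
  have hWc : ∀ b, b < B → ρ / 2 * c * G ≤ ((W b).card : ℝ) := by
    intro b hb
    obtain ⟨h1, h2, h3⟩ := hpP b hb
    have h4 : ((Y.filter (fun y => p b ∈ dom q v G y)).card : ℝ) ≤ ((W b).card : ℝ) := by
      rw [hW]
      exact_mod_cast wd_card (p b) hY' hinj h2
    have h5 : ρ / 2 * (c * G) ≤ ρ / 2 * Y.card := mul_le_mul_of_nonneg_left hYc (by positivity)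
    calc ρ / 2 * c * G = ρ / 2 * (c * G) := by ring
      _ ≤ _ := h5.trans (h3.trans h4)
  have hWne : ∀ b, b < B → (W b).Nonempty := by
    intro b hb
    rw [← card_pos]
    have h1 : (0 : ℝ) < ((W b).card : ℝ) := lt_of_lt_of_le (by positivity) (hWc b hb)
    exact_mod_cast h1
  have hWo : ∀ b, b < B → onc v O2 Θ (dist (v (p b)) O1) ((v (p b) - O1).arg : Real.Angle) (W b) := by
    intro b hb
    rw [hΘ, hW]
    exact wd_onc (p b) hY' (hpP b hb).2.1
  have hlt : ∀ i j, i < j → j < B → ∀ a ∈ W i, ∀ b ∈ W j, a < b ∧ b < q := by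
    intro i j hij hj a ha b hb
    have h1 := hpm' i j hij hj
    have h2 := hWm i a ha
    have h3 := hWm j b hb
    exact ⟨by omega, h3.1⟩
  -- PIG
  have hconc := hPIG B G hB4 hG1 (dD q v) (fun i j => dst v (W i) (W j))
    (fun i j => rk (dD q v) (dist (v (p i + G)) (v (p j + 1))))
    (fun i j => rk (dD q v) (dist (v (p i + 1)) (v (p j + G))))
    (fun b => dist (v (p b)) O1)
    (by
      have h1 : ((dD q v).card : ℝ) ≤ C * q := by exact_mod_cast hD
      have h2 : (C : ℝ) * q = 4 * C / ρ * (ρ / 4 * q) := by field_simp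
      calc ((dD q v).card : ℝ) ≤ C * q := h1
        _ = 4 * C / ρ * (ρ / 4 * q) := h2
        _ ≤ 4 * C / ρ * (B * G) := mul_le_mul_of_nonneg_left hBG (by positivity)
        _ = 4 * C / ρ * B * G := by ring)
    (by
      intro i j hij hj
      refine ⟨dst_sub (hlt i j hij hj), ?_, ?_⟩
      · refine (hWc j hj).trans ?_
        exact_mod_cast dst_card hv (hWne i (hij.trans hj)) (hlt i j hij hj)
      · refine le_trans ?_ hYd
        exact_mod_cast DUP v O2 Θ _ _ _ _ (W i) (W j) (hWo i (hij.trans hj)) (hWo j hj))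
    (by
      intro i j hij hj
      have h1 := hpm' i j hij hj
      have h2 := (hpP j hj).1
      exact ⟨rk_mono _ (mono_le hv (by omega) (by omega) (by omega) h2), rk_le _ _⟩)
    (by
      intro i j hij hj
      have h1 := hpm' i (i + 1) (by omega) (by omega)
      have h2 := hpm' (i + 1) j hij (by omega)
      have h3 := hpm' j (j + 1) (by omega) hj
      have h4 := (hpP (j + 1) hj).1
      exact rk_mono _ (mono_le hv (by omega) (by omega) (by omega) (by omega)))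
    (by
      intro i j hij hj
      have h2 := hpm' i j hij (by omega)
      have h3 := hpm' j (j + 1) (by omega) hj
      have h4 := (hpP (j + 1) hj).1
      have h5 := rk_jump hv (a := p i + 1) (b := p j + G) (c := p (j + 1) + G) (by omega) (by omega) h4
      have h6 : G ≤ p (j + 1) + G - (p j + G) := by omega
      exact le_trans (by omega) h5)
    (by
      intro i j k l hij hj hkl hl hne
      obtain ⟨x, hx⟩ := hne
      obtain ⟨hx1, hx2⟩ := mem_inter.1 hx
      obtain ⟨a, ha, b, hb, h1⟩ := mem_dst.1 hx1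
      obtain ⟨a', ha', b', hb', h2⟩ := mem_dst.1 hx2
      have m1 := hWm i a ha
      have m2 := hWm j b hb
      have m3 := hWm k a' ha'
      have m4 := hWm l b' hb'
      have n1 := hpm' i j hij hj
      have n2 := hpm' k l hkl hl
      apply rk_mono
      calc dist (v (p i + G)) (v (p j + 1)) ≤ dist (v a) (v b) :=
            mono_le hv m1.2.2 (by omega) (by omega) m2.1
        _ = dist (v a') (v b') := by rw [h1, h2]
        _ ≤ dist (v (p k + 1)) (v (p l + G)) :=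
            mono_le hv (by omega) (by omega) m4.2.2 (hpP l hl).1)
    (by
      intro i j k l hij hj hkl hl hne
      have hpos : ∀ b, b < B → 0 < dist (v (p b)) O1 := fun b hb => dist_pos.2 (hpP b hb).2.1
      have h1 := KEYC v O2 Θ _ _ _ _ _ _ _ _ (W i) (W j) (W k) (W l) (hWo i (hij.trans hj)) (hWo j hj)
        (hWo k (hkl.trans hl)) (hWo l hl) (hpos i (hij.trans hj)) (hpos j hj) (hpos k (hkl.trans hl)) (hpos l hl) hne
      have h2 : (((dst v (W i) (W j) ∩ dst v (W k) (W l)).card : ℝ)) ^ 4 ≤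
          4477456 * ((((Θ - Θ) + (Θ - Θ) - (Θ - Θ)).card : ℕ) : ℝ) ^ 3 := by exact_mod_cast h1
      have h3 : 4477456 * ((((Θ - Θ) + (Θ - Θ) - (Θ - Θ)).card : ℕ) : ℝ) ^ 3 ≤
          4477456 * ((K / c) ^ 6 * K * G) ^ 3 :=
        mul_le_mul_of_nonneg_left (pow_le_pow_left₀ (by positivity) htrip 3) (by norm_num)
      have h4 : 4477456 * ((K / c) ^ 6 * K * G) ^ 3 ≤ (ε * G) ^ 4 := by
        rw [div_lt_iff₀ (by positivity)] at hGG
        have h5 : 4477456 * ((K / c) ^ 6 * K * G) ^ 3 = (4477456 * ((K / c) ^ 6 * K) ^ 3) * (G : ℝ) ^ 3 := by ring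
        have h6 : (ε * G) ^ 4 = (G * ε ^ 4) * (G : ℝ) ^ 3 := by ring
        rw [h5, h6]
        exact mul_le_mul_of_nonneg_right hGG.le (by positivity)
      exact le_of_pow_le_pow_left₀ (by norm_num) (by positivity) (h2.trans (h3.trans h4)))
  obtain ⟨r0, hr0⟩ := hconc
  obtain ⟨I, hI⟩ : ∃ I, I = (range B).filter (fun b => dist (v (p b)) O1 = r0) := ⟨_, rfl⟩
  change δ * B ≤ (((range B).filter (fun b => dist (v (p b)) O1 = r0)).card : ℝ) at hr0
  rw [← hI] at hr0
  have hBpos : (0 : ℝ) < B := by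
    have : (4 : ℝ) ≤ B := by exact_mod_cast hB4
    linarith
  have hIpos : (0 : ℝ) < I.card := lt_of_lt_of_le (by positivity) hr0
  have hIne : I.Nonempty := by
    rw [← card_pos]
    exact_mod_cast hIpos
  refine ⟨O2, r0, ?_, ?_⟩
  · obtain ⟨b, hb⟩ := hIne
    rw [hI, mem_filter, mem_range] at hb
    rw [← hb.2]
    exact dist_pos.2 (hpP b hb.1).2.1
  · have h1 : I.biUnion W ⊆ (range q).filter (fun j => dist (v j) O2 = r0) := by
      intro j hj
      obtain ⟨b, hb, hj⟩ := mem_biUnion.1 hj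
      rw [hI, mem_filter, mem_range] at hb
      rw [mem_filter, mem_range]
      refine ⟨(hWm b j hj).1, ?_⟩
      rw [← hb.2]
      exact (hWo b hb.1 j hj).1
    have h2 : (I.biUnion W).card = ∑ b ∈ I, (W b).card := by
      apply card_biUnion
      intro b hb b' hb' hne
      apply disjoint_left.2
      intro j hj hj'
      rw [hI] at hb hb'
      have c1 := mem_range.1 (mem_filter.1 hb).1
      have c2 := mem_range.1 (mem_filter.1 hb').1
      have c3 := hWm b j hj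
      have c4 := hWm b' j hj'
      rcases lt_trichotomy b b' with h | h | h
      · have := hpm' b b' h c2
        omega
      · exact hne h
      · have := hpm' b' b h c1
        omega
    have h3 : (I.card : ℝ) * (ρ / 2 * c * G) ≤ ∑ b ∈ I, ((W b).card : ℝ) := by
      rw [← nsmul_eq_mul]
      apply card_nsmul_le_sum
      intro b hb
      rw [hI] at hb
      exact hWc b (mem_range.1 (mem_filter.1 hb).1)
    have h4 : ∑ b ∈ I, ((W b).card : ℝ) ≤ (((range q).filter (fun j => dist (v j) O2 = r0)).card : ℝ) := by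
      have h5 : ((I.biUnion W).card : ℝ) = ∑ b ∈ I, ((W b).card : ℝ) := by exact_mod_cast h2
      rw [← h5]
      exact_mod_cast card_le_card h1
    calc δ * (ρ / 2 * c) * (ρ / 4) * q = δ * (ρ / 2 * c) * (ρ / 4 * q) := by ring
      _ ≤ δ * (ρ / 2 * c) * (B * G) := mul_le_mul_of_nonneg_left hBG (by positivity)
      _ = (δ * B) * (ρ / 2 * c * G) := by ring
      _ ≤ (I.card : ℝ) * (ρ / 2 * c * G) := mul_le_mul_of_nonneg_right hr0 (by positivity)
      _ ≤ _ := h3.trans h4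

end Pool.Agent.H71.WIN
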